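import Pool.Agent.Lib.MP_5fcc10_co_lin.MidDefs
import Pool.Agent.Lib.MP_5fcc10_co_lin.Deg
import Pool.Agent.Lib.MP_5fcc10_co.OddA

/-! Isoperimetry of the two middle levels. -/

set_option linter.unusedSectionVars false

namespace Pool.Agent.SK.Lin.H67

open Finset
open scoped symmDiff

variable {n : ℕ}

lemma mem_bdy {k : ℕ} {Q : Finset (Finset (Fin n))} {x : Finset (Fin n) × Fin n} :
    x ∈ bdy k Q ↔ x.1 ∈ Q ∧ x.2 ∈ nb k x.1 ∧ tg x.1 x.2 ∉ Q := by
  unfold bdy
  simp only [mem_filter, mem_product, mem_univ, and_true]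

lemma card_nb_mid {k : ℕ} (hn : n = 2 * k + 1) {v : Finset (Fin n)} (hv : inL k v) :
    (nb k v).card = k + 1 := by
  rcases hv with h | h
  · rw [nb_low h, card_compl, Fintype.card_fin, h]; omega
  · rw [nb_high h, h]

/-- pairs (vertex, direction) -/
def darts (k : ℕ) (A : Finset (Finset (Fin n))) : Finset (Finset (Fin n) × Fin n) :=
  (A ×ˢ univ).filter (fun x => x.2 ∈ nb k x.1)

lemma mem_darts {k : ℕ} {A : Finset (Finset (Fin n))} {x : Finset (Fin n) × Fin n} :
    x ∈ darts k A ↔ x.1 ∈ A ∧ x.2 ∈ nb k x.1 := by
  unfold darts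
  simp only [mem_filter, mem_product, mem_univ, and_true]

lemma card_darts {k : ℕ} (hn : n = 2 * k + 1) {A : Finset (Finset (Fin n))}
    (hA : ∀ v ∈ A, inL k v) : (darts k A).card = A.card * (k + 1) := by
  unfold darts
  rw [card_filter, sum_product]
  have : ∀ u ∈ A, ∑ e : Fin n, (if e ∈ nb k u then 1 else 0) = k + 1 := by
    intro u hu
    rw [← card_filter, filter_mem_eq_inter, univ_inter, card_nb_mid hn (hA u hu)]
  rw [sum_congr rfl this, sum_const, smul_eq_mul]

/-- the degree count -/
lemma degree_count {k : ℕ} (hn : n = 2 * k + 1) (Q : Finset (Finset (Fin n)))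
    (hQ : ∀ v ∈ Q, inL k v) :
    (Q.filter (fun v => v.card = k + 1)).card * (k + 1) ≤
      (Q.filter (fun v => v.card = k)).card * (k + 1) + (bdy k Q).card := by
  have h1 := card_darts hn (A := Q.filter (fun v => v.card = k + 1))
    (fun v hv => hQ v (mem_filter.1 hv).1)
  have h2 := card_darts hn (A := Q.filter (fun v => v.card = k))
    (fun v hv => hQ v (mem_filter.1 hv).1)
  rw [← h1, ← h2]
  have h3 : darts k (Q.filter (fun v => v.card = k + 1)) ⊆
      (darts k (Q.filter (fun v => v.card = k))).image (fun x => (tg x.1 x.2, x.2)) ∪ bdy k Q := by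
    intro x hx
    rw [mem_darts, mem_filter] at hx
    obtain ⟨⟨hx1, hx2⟩, hx3⟩ := hx
    rw [mem_union]
    by_cases h : tg x.1 x.2 ∈ Q
    · left
      rw [mem_image]
      refine ⟨(tg x.1 x.2, x.2), ?_, ?_⟩
      · rw [mem_darts, mem_filter]
        refine ⟨⟨h, ?_⟩, mem_nb_tg hx3⟩
        rw [nb_high hx2] at hx3
        exact card_tg_high hx2 hx3
      · simp only [tg_tg]
    · right
      rw [mem_bdy]
      exact ⟨hx1, hx3, h⟩
  calc (darts k (Q.filter (fun v => v.card = k + 1))).card
      ≤ ((darts k (Q.filter (fun v => v.card = k))).image (fun x => (tg x.1 x.2, x.2)) ∪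
        bdy k Q).card := card_le_card h3
    _ ≤ _ := (card_union_le _ _).trans (Nat.add_le_add_right card_image_le _)

/-- every cut pair of the Johnson graph gives a boundary edge -/
lemma jcut_le {k : ℕ} (Q : Finset (Finset (Fin n))) :
    (jcut k (Q.filter (fun v => v.card = k))).card ≤ (bdy k Q).card * k := by
  classical
  set A := Q.filter (fun v => v.card = k) with hA
  let G : Finset (Fin n) × Fin n → Finset (Fin n) := fun x =>
    if x.1.card = k + 1 then x.1.erase x.2 else x.1
  let M : Finset (Fin n) × Fin n → Fin n → Finset (Fin n) × Finset (Fin n) := fun x f =>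
    if x.1.card = k + 1 then (x.1.erase f, x.1.erase x.2) else (x.1, (insert x.2 x.1).erase f)
  have hsub : jcut k A ⊆ (bdy k Q).biUnion (fun x => (G x).image (M x)) := by
    rintro ⟨u, v⟩ huv
    unfold jcut at huv
    rw [mem_filter] at huv
    obtain ⟨-, hu, hv, hvk, hc⟩ := huv
    simp only at hu hv hvk hc
    rw [hA, mem_filter] at hu
    obtain ⟨huQ, huk⟩ := hu
    have hvQ : v ∉ Q := fun h => hv (by rw [hA, mem_filter]; exact ⟨h, hvk⟩)
    -- the two elements
    have hd : (u \ v).card = (v \ u).card := by
      have e1 := card_sdiff_add_card_inter u v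
      have e2 := card_sdiff_add_card_inter v u
      rw [inter_comm] at e2
      omega
    have hd2 : (u \ v).card + (v \ u).card = 2 := by
      rw [← hc, symmDiff_def, sup_eq_union, card_union_of_disjoint disjoint_sdiff_sdiff]
    obtain ⟨f, hf⟩ := card_eq_one.1 (show (u \ v).card = 1 by omega)
    obtain ⟨e, he⟩ := card_eq_one.1 (show (v \ u).card = 1 by omega)
    have hfu : f ∈ u ∧ f ∉ v := by rw [← mem_sdiff, hf]; exact mem_singleton_self _
    have hev : e ∈ v ∧ e ∉ u := by rw [← mem_sdiff, he]; exact mem_singleton_self _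
    have hfe : f ≠ e := fun h => hev.2 (h ▸ hfu.1)
    have hv' : v = (insert e u).erase f := by
      ext a
      rw [mem_erase, mem_insert]
      constructor
      · intro ha
        refine ⟨fun h => hfu.2 (h ▸ ha), ?_⟩
        by_cases hau : a ∈ u
        · exact Or.inr hau
        · left
          have : a ∈ v \ u := mem_sdiff.2 ⟨ha, hau⟩
          rw [he] at this
          exact mem_singleton.1 this
      · rintro ⟨h1, h2 | h2⟩
        · rw [h2]; exact hev.1
        · by_contra hav
          have : a ∈ u \ v := mem_sdiff.2 ⟨h2, hav⟩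
          rw [hf] at this
          exact h1 (mem_singleton.1 this)
    have hwk : (insert e u).card = k + 1 := by rw [card_insert_of_notMem hev.2, huk]
    rw [mem_biUnion]
    by_cases hw : insert e u ∈ Q
    · refine ⟨(insert e u, f), ?_, ?_⟩
      · rw [mem_bdy]
        have hfw : f ∈ insert e u := mem_insert_of_mem hfu.1
        refine ⟨hw, ?_, ?_⟩
        · simp only
          rw [nb_high hwk]
          exact hfw
        · simp only
          rw [tg_of_mem hfw, ← hv']
          exact hvQ
      · rw [mem_image]
        refine ⟨e, ?_, ?_⟩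
        · simp only [G]
          rw [if_pos hwk, mem_erase]
          exact ⟨hfe.symm, mem_insert_self _ _⟩
        · simp only [M]
          rw [if_pos hwk, erase_insert hev.2, ← hv']
    · have hne : ¬ u.card = k + 1 := by omega
      refine ⟨(u, e), ?_, ?_⟩
      · rw [mem_bdy]
        refine ⟨huQ, ?_, ?_⟩
        · simp only
          rw [nb_low huk, mem_compl]
          exact hev.2
        · simp only
          rw [tg_of_notMem hev.2]
          exact hw
      · rw [mem_image]
        refine ⟨f, ?_, ?_⟩
        · simp only [G]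
          rw [if_neg hne]
          exact hfu.1
        · simp only [M]
          rw [if_neg hne, ← hv']
  refine (card_le_card hsub).trans (card_biUnion_le_card_mul _ _ _ ?_)
  intro x hx
  refine card_image_le.trans ?_
  rw [mem_bdy] at hx
  obtain ⟨-, h2, -⟩ := hx
  simp only [G]
  rcases nb_cases h2 with ⟨h, h'⟩ | ⟨h, h'⟩
  · rw [if_neg (by omega)]
    exact h.le
  · rw [if_pos h, card_erase_of_mem h', h]
    rfl

/-- the case in which the lower part is smaller -/
lemma iso_low {k : ℕ} (hn : n = 2 * k + 1) (Q : Finset (Finset (Fin n)))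
    (hQ : ∀ v ∈ Q, inL k v) (hc : Q.card ≤ n.choose k)
    (hab : (Q.filter (fun v => v.card = k)).card ≤ (Q.filter (fun v => v.card = k + 1)).card) :
    Q.card ≤ 8 * (k + 1) ^ 2 * (bdy k Q).card := by
  set A := Q.filter (fun v => v.card = k) with hA
  set B := Q.filter (fun v => v.card = k + 1) with hB
  have hQAB : Q.card = A.card + B.card := by
    rw [← card_union_of_disjoint]
    · congr 1
      ext v
      rw [mem_union, hA, hB, mem_filter, mem_filter]
      constructor
      · intro h
        rcases hQ v h with h1 | h1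
        · exact Or.inl ⟨h, h1⟩
        · exact Or.inr ⟨h, h1⟩
      · rintro (h | h)
        · exact h.1
        · exact h.1
    · rw [disjoint_left]
      intro v h1 h2
      rw [hA, mem_filter] at h1
      rw [hB, mem_filter] at h2
      omega
  have h1 := degree_count hn Q hQ
  have h2 := jcut_le (k := k) Q
  rw [← hA] at h1 h2
  rw [← hB] at h1
  have h3 := johnson_iso A (k := k) (fun u hu => (mem_filter.1 hu).2) (by omega)
  have hAsub : A ⊆ powersetCard k (univ : Finset (Fin n)) := by
    intro u hu
    rw [mem_powersetCard]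
    exact ⟨subset_univ _, (mem_filter.1 hu).2⟩
  have h4 : (powersetCard k (univ : Finset (Fin n)) \ A).card = n.choose k - A.card := by
    rw [card_sdiff_of_subset hAsub, card_powersetCard, card_univ, Fintype.card_fin]
  rw [h4] at h3
  set N := n.choose k with hN
  set a := A.card
  set b := B.card
  set E := (bdy k Q).card
  set J := (jcut k A).card
  have hNpos : 0 < N := Nat.choose_pos (by omega)
  -- a ≤ 2 k ^ 2 E
  have h5 : N * a ≤ N * (2 * k ^ 2 * E) := by
    have e1 : N ≤ 2 * (N - a) := by omega
    calc N * a ≤ 2 * (N - a) * a := Nat.mul_le_mul_right _ e1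
      _ = 2 * (a * (N - a)) := by ring
      _ ≤ 2 * (N * (k * J)) := Nat.mul_le_mul_left _ h3
      _ ≤ 2 * (N * (k * (E * k))) := by gcongr
      _ = N * (2 * k ^ 2 * E) := by ring
  have h6 : a ≤ 2 * k ^ 2 * E := Nat.le_of_mul_le_mul_left h5 hNpos
  have h7 : b ≤ a + E := by
    have : b * (k + 1) ≤ (a + E) * (k + 1) := by nlinarith
    exact Nat.le_of_mul_le_mul_right this (by omega)
  rw [hQAB]
  have h8 : a + b ≤ (4 * k ^ 2 + 1) * E := by nlinarith
  refine h8.trans (Nat.mul_le_mul_right _ ?_)
  nlinarith

lemma tg_compl (v : Finset (Fin n)) (e : Fin n) : tg vᶜ e = (tg v e)ᶜ := by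
  ext a
  rw [mem_tg, mem_compl, mem_compl, mem_tg]
  by_cases h1 : a ∈ v <;> by_cases h2 : a = e <;> simp [h1, h2]

lemma card_compl_mid {k : ℕ} (hn : n = 2 * k + 1) (v : Finset (Fin n)) :
    (vᶜ.card = k ↔ v.card = k + 1) ∧ (vᶜ.card = k + 1 ↔ v.card = k) := by
  have h1 := card_add_card_compl v
  rw [Fintype.card_fin] at h1
  constructor <;> constructor <;> intro h <;> omega

lemma nb_compl {k : ℕ} (hn : n = 2 * k + 1) (v : Finset (Fin n)) : nb k vᶜ = nb k v := by
  obtain ⟨h1, h2⟩ := card_compl_mid hn v
  unfold nb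
  by_cases h3 : v.card = k
  · rw [if_pos h3, if_neg, if_pos (h2.2 h3)]
    rw [h1]
    omega
  · rw [if_neg h3]
    by_cases h4 : v.card = k + 1
    · rw [if_pos h4, if_pos (h1.2 h4), compl_compl]
    · rw [if_neg h4, if_neg (fun h => h4 (h1.1 h)), if_neg (fun h => h3 (h2.1 h))]

theorem iso_mid {n k : ℕ} (hn : n = 2 * k + 1) (Q : Finset (Finset (Fin n)))
    (hQ : ∀ v ∈ Q, inL k v) (hc : Q.card ≤ n.choose k) :
    Q.card ≤ 8 * (k + 1) ^ 2 * (bdy k Q).card := by
  classical
  rcases le_total (Q.filter (fun v => v.card = k)).card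
    (Q.filter (fun v => v.card = k + 1)).card with h | h
  · exact iso_low hn Q hQ hc h
  · have hinj : Function.Injective (fun v : Finset (Fin n) => vᶜ) := compl_injective
    set Q' := Q.image (fun v : Finset (Fin n) => vᶜ) with hQ'
    have hmem : ∀ v, v ∈ Q' ↔ vᶜ ∈ Q := by
      intro v
      rw [hQ', mem_image]
      constructor
      · rintro ⟨w, hw, rfl⟩
        rw [compl_compl]
        exact hw
      · intro h
        exact ⟨vᶜ, h, compl_compl v⟩
    have hcard : Q'.card = Q.card := card_image_of_injective _ hinj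
    have hbdy : (bdy k Q').card = (bdy k Q).card := by
      refine card_bij' (fun x _ => (x.1ᶜ, x.2)) (fun x _ => (x.1ᶜ, x.2)) ?_ ?_ ?_ ?_
      · intro x hx
        rw [mem_bdy] at hx ⊢
        refine ⟨(hmem _).1 hx.1, ?_, ?_⟩
        · simp only
          rw [nb_compl hn]
          exact hx.2.1
        · simp only
          rw [tg_compl, ← hmem]
          exact hx.2.2
      · intro x hx
        rw [mem_bdy] at hx ⊢
        refine ⟨(hmem _).2 (by simpa using hx.1), ?_, ?_⟩
        · simp only
          rw [nb_compl hn]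
          exact hx.2.1
        · simp only
          rw [tg_compl, hmem, compl_compl]
          exact hx.2.2
      · intro x _
        simp
      · intro x _
        simp
    have hf1 : (Q'.filter (fun v => v.card = k)).card =
        (Q.filter (fun v => v.card = k + 1)).card := by
      rw [hQ', filter_image, card_image_of_injective _ hinj]
      congr 1
      ext v
      simp only [mem_filter, (card_compl_mid hn v).1]
    have hf2 : (Q'.filter (fun v => v.card = k + 1)).card =
        (Q.filter (fun v => v.card = k)).card := by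
      rw [hQ', filter_image, card_image_of_injective _ hinj]
      congr 1
      ext v
      simp only [mem_filter, (card_compl_mid hn v).2]
    have := iso_low hn Q' (by
      intro v hv
      rcases hQ _ ((hmem v).1 hv) with h1 | h1
      · exact Or.inr ((card_compl_mid hn v).1.1 h1)
      · exact Or.inl ((card_compl_mid hn v).2.1 h1)) (by rw [hcard]; exact hc)
      (by rw [hf1, hf2]; exact h)
    rw [hcard, hbdy] at this
    exact this

end Pool.Agent.SK.Lin.H67
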